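import Mathlib
import Pool.Agent.R503.N.FinB
import Pool.Agent.H441R3.BV.Fin

/-!
One left modulus, few residue classes, all heights.
-/

set_option autoImplicit false

open Finset Filter

namespace Pool.Agent.Helper91K1

open Pool.Agent.R503.N
open Pool.Agent.Y826.Z Pool.Agent.Y826.Z.OB
open Pool.Agent.H300R2.WEH (err piR gp exists_grid gp_step gp_last)

/-- the discrepancy over the classes modulo `q t` inside a class modulo `q` -/
noncomputable def dd (y q t : ℕ) (c : ℤ) : ℝ := pn y (q * t) c - pn y q c / (Nat.totient t : ℝ)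

lemma pn_mono {y z : ℕ} (h : y ≤ z) (q : ℕ) (c : ℤ) : pn y q c ≤ pn z q c := by
  unfold pn
  exact_mod_cast card_le_card (filter_subset_filter _ (Icc_subset_Icc_right h))

lemma pn_gap (y z q : ℕ) (c : ℤ) (hq : 0 < q) (h : y ≤ z) :
    pn z q c - pn y q c ≤ ((z - y : ℕ) : ℝ) / q + 1 := by
  have h1 := sum_cls y z q hq c
  refine le_trans ?_ h1
  rw [pn_eq, pn_eq]
  have h2 : Icc 1 z = Icc 1 y ∪ Ioc y z := by
    ext n
    simp only [mem_union, mem_Icc, mem_Ioc]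
    omega
  have h3 : Disjoint (Icc 1 y) (Ioc y z) := by
    rw [disjoint_left]
    intro n h1 h2
    rw [mem_Icc] at h1
    rw [mem_Ioc] at h2
    omega
  rw [h2, sum_union h3, add_sub_cancel_left]
  apply sum_le_sum
  intro n _
  unfold ind
  split_ifs with a b b
  · exact le_rfl
  · exact absurd a.2 b
  · exact zero_le_one
  · exact le_rfl

lemma dd_grid (x J y q t : ℕ) (c : ℤ) (hJ : 1 ≤ J) (hy : y ≤ x) (hq : 0 < q) :
    ∃ i < J, |dd y q t c| ≤ |dd (gp x J i) q t c| + |dd (gp x J (i + 1)) q t c| +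
      ((((x : ℝ) / J + 1) / q + 1)) * (1 / (Nat.totient t : ℝ)) := by
  obtain ⟨i, hi, h1, h2⟩ := exists_grid x J y hJ hy
  refine ⟨i, hi, ?_⟩
  obtain ⟨s1, s2⟩ := gp_step x J i hJ
  set u := gp x J i with hu
  set v := gp x J (i + 1) with hv
  have hφ : (0 : ℝ) ≤ 1 / (Nat.totient t : ℝ) := by positivity
  have hq0 : (0 : ℝ) < q := by exact_mod_cast hq
  have g1 := pn_gap u v q c hq s1
  have g2 : ((v - u : ℕ) : ℝ) / q + 1 ≤ ((x : ℝ) / J + 1) / q + 1 := by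
    rw [Nat.cast_sub s1]
    gcongr
  have a1 := pn_mono h1 (q * t) c
  have a2 := pn_mono h2 (q * t) c
  have a3 := pn_mono h1 q c
  have a4 := pn_mono h2 q c
  have e1 : pn v q c / (Nat.totient t : ℝ) - pn u q c / (Nat.totient t : ℝ) ≤
      (((x : ℝ) / J + 1) / q + 1) * (1 / (Nat.totient t : ℝ)) := by
    rw [← sub_div, div_eq_mul_one_div]
    exact mul_le_mul_of_nonneg_right (g1.trans g2) hφ
  have e2 : pn u q c / (Nat.totient t : ℝ) ≤ pn y q c / (Nat.totient t : ℝ) :=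
    div_le_div_of_nonneg_right a3 (Nat.cast_nonneg _)
  have e3 : pn y q c / (Nat.totient t : ℝ) ≤ pn v q c / (Nat.totient t : ℝ) :=
    div_le_div_of_nonneg_right a4 (Nat.cast_nonneg _)
  have b1 : dd v q t c ≤ |dd v q t c| := le_abs_self _
  have b2 : -dd u q t c ≤ |dd u q t c| := neg_le_abs _
  have b3 := abs_nonneg (dd v q t c)
  have b4 := abs_nonneg (dd u q t c)
  rw [abs_le]
  unfold dd at *
  constructor <;> linarith

/-- few classes and all heights, for one left modulus -/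
lemma few (x J q : ℕ) (A : Finset ℤ) (T : Finset ℕ) (a : ℕ → ℤ) (y : ℕ → ℕ) (B S : ℝ) (hJ : 1 ≤ J)
    (hq : 0 < q) (hy : ∀ t ∈ T, y t ≤ x) (ha : ∀ t ∈ T, a t ∈ A)
    (hB : ∀ c ∈ A, ∀ z ≤ x, ∑ t ∈ T.filter (fun t => a t = c), |dd z q t c| ≤ B)
    (hS : ∑ t ∈ T, 1 / (Nat.totient t : ℝ) ≤ S) :
    ∑ t ∈ T, |dd (y t) q t (a t)| ≤ A.card * (2 * (J + 1) * B) + (((x : ℝ) / J + 1) / q + 1) * S := by
  classical
  choose! i hi hd using fun t (ht : t ∈ T) => dd_grid x J (y t) q t (a t) hJ (hy t ht) hq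
  have hg : 0 ≤ ((x : ℝ) / J + 1) / q + 1 := by positivity
  have hgpx : ∀ j ∈ range (J + 1), gp x J j ≤ x := by
    intro j hj
    rw [mem_range] at hj
    unfold gp
    calc j * x / J ≤ J * x / J := Nat.div_le_div_right (Nat.mul_le_mul_right x (by omega))
      _ = x := Nat.mul_div_cancel_left x (by omega)
  have h1 : ∀ t ∈ T, |dd (y t) q t (a t)| ≤ 2 * ∑ j ∈ range (J + 1), |dd (gp x J j) q t (a t)| +
      (((x : ℝ) / J + 1) / q + 1) * (1 / (Nat.totient t : ℝ)) := by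
    intro t ht
    have hit := hi t ht
    have s1 : |dd (gp x J (i t)) q t (a t)| ≤ ∑ j ∈ range (J + 1), |dd (gp x J j) q t (a t)| :=
      single_le_sum (f := fun j => |dd (gp x J j) q t (a t)|) (fun _ _ => abs_nonneg _)
        (mem_range.2 (by omega))
    have s2 : |dd (gp x J (i t + 1)) q t (a t)| ≤ ∑ j ∈ range (J + 1), |dd (gp x J j) q t (a t)| :=
      single_le_sum (f := fun j => |dd (gp x J j) q t (a t)|) (fun _ _ => abs_nonneg _)
        (mem_range.2 (by omega))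
    linarith [hd t ht]
  refine (sum_le_sum h1).trans ?_
  rw [sum_add_distrib, ← mul_sum, ← mul_sum]
  have h2 : ∑ t ∈ T, ∑ j ∈ range (J + 1), |dd (gp x J j) q t (a t)| ≤ A.card * ((J + 1) * B) := by
    rw [← sum_fiberwise_of_maps_to ha]
    calc ∑ c ∈ A, ∑ t ∈ T.filter (fun t => a t = c), ∑ j ∈ range (J + 1), |dd (gp x J j) q t (a t)|
        ≤ ∑ _c ∈ A, ((J + 1) * B) := by
          apply sum_le_sum
          intro c hc
          rw [sum_comm]
          calc ∑ j ∈ range (J + 1), ∑ t ∈ T.filter (fun t => a t = c), |dd (gp x J j) q t (a t)|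
              ≤ ∑ _j ∈ range (J + 1), B := by
                apply sum_le_sum
                intro j hj
                refine le_trans (le_of_eq ?_) (hB c hc (gp x J j) (hgpx j hj))
                apply sum_congr rfl
                intro t ht
                rw [(mem_filter.1 ht).2]
            _ = (J + 1) * B := by
                rw [sum_const, card_range, nsmul_eq_mul]
                push_cast
                ring
      _ = A.card * ((J + 1) * B) := by rw [sum_const, nsmul_eq_mul]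
  have h3 := mul_le_mul_of_nonneg_left hS hg
  calc 2 * ∑ t ∈ T, ∑ j ∈ range (J + 1), |dd (gp x J j) q t (a t)| +
        (((x : ℝ) / J + 1) / q + 1) * ∑ t ∈ T, 1 / (Nat.totient t : ℝ)
      ≤ 2 * (A.card * ((J + 1) * B)) + (((x : ℝ) / J + 1) / q + 1) * S := by
        apply add_le_add _ h3
        linarith
    _ = _ := by ring

/-- the estimate for one left modulus -/
theorem one_left (θ κ : ℝ) (hθ1 : 1 / 2 ≤ θ) (hθ : θ < 43 / 84) (hκ0 : 0 ≤ κ) (hκ : κ < 1 / 3) :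
    ∃ η : ℝ, 0 < η ∧ ∀ ε1 : ℝ, 0 < ε1 → ∃ ν : ℝ, 0 < ν ∧ ∀ᶠ x : ℕ in atTop, ∀ q : ℕ, 0 < q →
      (q : ℝ) ≤ (x : ℝ) ^ κ → ∀ A : Finset ℤ, (A.card : ℝ) ≤ (x : ℝ) ^ ν → ∀ (T : Finset ℕ) (a : ℕ → ℤ)
      (y : ℕ → ℕ), (∀ t ∈ T, a t ∈ A) → (∀ t ∈ T, IsCoprime (a t) (q : ℤ)) →
      (∀ t ∈ T, Mo x q (a t) θ ε1 η t) → (∀ t ∈ T, y t ≤ x) →
      ∑ t ∈ T, |dd (y t) q t (a t)| ≤ (x : ℝ) ^ (1 - ν) / q := by
  obtain ⟨η, hη, hmain⟩ := pi_all θ κ hθ1 hθ hκ0 hκ
  refine ⟨η, hη, fun ε1 hε1 => ?_⟩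
  obtain ⟨ε', hε', hev⟩ := hmain ε1 hε1
  set ε : ℝ := min ε' (1 / 2) with hεdef
  have hε : 0 < ε := lt_min hε' (by norm_num)
  have hεε : ε ≤ ε' := min_le_left _ _
  have hε2 : ε ≤ 1 / 2 := min_le_right _ _
  refine ⟨ε / 8, by positivity, ?_⟩
  have hL : ∀ᶠ x : ℕ in atTop, 16 * Real.log x ^ 2 ≤ (x : ℝ) ^ (ε / 16) :=
    tendsto_natCast_atTop_atTop.eventually (Pool.Agent.Y61.Z.ev_log_rpow 16 2 (by positivity))
  have h32 : ∀ᶠ x : ℕ in atTop, (32 : ℝ) ≤ (x : ℝ) ^ (ε / 16) :=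
    tendsto_natCast_atTop_atTop.eventually (Pool.Agent.Y61.Z.ev_rpow _ (by positivity))
  filter_upwards [hev, hL, h32, eventually_ge_atTop 3] with x hx hxL hx32 hx3 q hq hqκ A hA T a y ha hac hMo hy
  have hx1 : (1 : ℝ) ≤ x := by exact_mod_cast (by omega : 1 ≤ x)
  have hx0 : (0 : ℝ) < x := by linarith
  have hq0 : (0 : ℝ) < q := by exact_mod_cast hq
  have rle : ∀ {a b : ℝ}, a ≤ b → (x : ℝ) ^ a ≤ (x : ℝ) ^ b := fun h => Real.rpow_le_rpow_of_exponent_le hx1 h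
  have radd : ∀ a b : ℝ, (x : ℝ) ^ a * (x : ℝ) ^ b = (x : ℝ) ^ (a + b) := fun a b => (Real.rpow_add hx0 a b).symm
  have rpos : ∀ a : ℝ, 0 < (x : ℝ) ^ a := fun a => Real.rpow_pos_of_pos hx0 a
  set J : ℕ := ⌊(x : ℝ) ^ (ε / 2)⌋₊ with hJ
  have hJ1 : 1 ≤ J := Nat.floor_pos.2 (Real.one_le_rpow hx1 (by positivity))
  have hJr : (1 : ℝ) ≤ J := by exact_mod_cast hJ1
  have hJle : (J : ℝ) ≤ (x : ℝ) ^ (ε / 2) := Nat.floor_le (rpos _).le
  have hJge : (x : ℝ) ^ (ε / 2) ≤ 2 * J := by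
    have := Nat.lt_floor_add_one ((x : ℝ) ^ (ε / 2))
    rw [← hJ] at this
    linarith
  have hTx : T ⊆ Icc 1 x := by
    intro t ht
    rw [mem_Icc]
    refine ⟨(hMo t ht).pos, ?_⟩
    have h1 : (t : ℝ) ≤ x := by
      have h2 : (t : ℝ) ≤ q * t := le_mul_of_one_le_left (Nat.cast_nonneg t) (by exact_mod_cast hq)
      refine h2.trans ((hMo t ht).2.2.2.trans ?_)
      calc (x : ℝ) ^ θ ≤ (x : ℝ) ^ (1 : ℝ) := rle (by linarith)
        _ = x := Real.rpow_one _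
    exact_mod_cast h1
  have hS := sum_inv_phi x hx3 T hTx
  have h1 := few x J q A T a y ((x : ℝ) ^ (1 - ε) / q) (4 * Real.log x ^ 2) hJ1 hq hy ha (by
    intro c hc z hz
    by_cases hne : (T.filter (fun t => a t = c)).Nonempty
    · obtain ⟨t0, ht0⟩ := hne
      rw [mem_filter] at ht0
      have hcc : IsCoprime c (q : ℤ) := by rw [← ht0.2]; exact hac t0 ht0.1
      have h2 := hx q hq hqκ c hcc (T.filter (fun t => a t = c)) (by
        intro t ht
        rw [mem_filter] at ht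
        have := hMo t ht.1
        rw [ht.2] at this
        exact this) z hz
      refine h2.trans ?_
      apply div_le_div_of_nonneg_right _ hq0.le
      exact rle (by linarith)
    · rw [not_nonempty_iff_eq_empty] at hne
      rw [hne, sum_empty]
      have := rpos (1 - ε)
      positivity) hS
  refine h1.trans ?_
  have hA' : (A.card : ℝ) ≤ (x : ℝ) ^ (ε / 8) := hA
  have k1 : (A.card : ℝ) * (2 * (J + 1) * ((x : ℝ) ^ (1 - ε) / q)) ≤
      4 * ((x : ℝ) ^ (1 - 3 * ε / 8) / q) := by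
    calc (A.card : ℝ) * (2 * (J + 1) * ((x : ℝ) ^ (1 - ε) / q))
        ≤ (x : ℝ) ^ (ε / 8) * (2 * ((x : ℝ) ^ (ε / 2) + (x : ℝ) ^ (ε / 2)) * ((x : ℝ) ^ (1 - ε) / q)) := by
          have := (rpos (1 - ε)).le
          have h3 : (1 : ℝ) ≤ (x : ℝ) ^ (ε / 2) := Real.one_le_rpow hx1 (by positivity)
          gcongr
      _ = 4 * (((x : ℝ) ^ (ε / 8) * (x : ℝ) ^ (ε / 2) * (x : ℝ) ^ (1 - ε)) / q) := by ring
      _ = _ := by
          rw [radd, radd]
          have : ε / 8 + ε / 2 + (1 - ε) = 1 - 3 * ε / 8 := by ring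
          rw [this]
  have k2 : (((x : ℝ) / J + 1) / q + 1) * (4 * Real.log x ^ 2) ≤ (x : ℝ) ^ (1 - 3 * ε / 8) / q := by
    have hqx : (q : ℝ) ≤ (x : ℝ) ^ (1 - ε / 2) := hqκ.trans (rle (by linarith))
    have j1 : (x : ℝ) / J ≤ 2 * (x : ℝ) ^ (1 - ε / 2) := by
      rw [div_le_iff₀ (by linarith)]
      calc (x : ℝ) = (x : ℝ) ^ (1 - ε / 2) * (x : ℝ) ^ (ε / 2) := by
            rw [radd]
            have : 1 - ε / 2 + ε / 2 = 1 := by ring
            rw [this, Real.rpow_one]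
        _ ≤ (x : ℝ) ^ (1 - ε / 2) * (2 * J) := mul_le_mul_of_nonneg_left hJge (rpos _).le
        _ = _ := by ring
    have j2 : (1 : ℝ) ≤ (x : ℝ) ^ (1 - ε / 2) := Real.one_le_rpow hx1 (by linarith)
    have j3 : ((x : ℝ) / J + 1) / q + 1 ≤ 4 * ((x : ℝ) ^ (1 - ε / 2) / q) := by
      have : (1 : ℝ) ≤ (x : ℝ) ^ (1 - ε / 2) / q := by rw [le_div_iff₀ hq0]; linarith
      calc ((x : ℝ) / J + 1) / q + 1 ≤ (2 * (x : ℝ) ^ (1 - ε / 2) + (x : ℝ) ^ (1 - ε / 2)) / q +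
            (x : ℝ) ^ (1 - ε / 2) / q := by gcongr
        _ = _ := by ring
    calc (((x : ℝ) / J + 1) / q + 1) * (4 * Real.log x ^ 2)
        ≤ (4 * ((x : ℝ) ^ (1 - ε / 2) / q)) * (4 * Real.log x ^ 2) :=
          mul_le_mul_of_nonneg_right j3 (by positivity)
      _ = (16 * Real.log x ^ 2) * ((x : ℝ) ^ (1 - ε / 2) / q) := by ring
      _ ≤ (x : ℝ) ^ (ε / 16) * ((x : ℝ) ^ (1 - ε / 2) / q) :=
          mul_le_mul_of_nonneg_right hxL (div_nonneg (rpos _).le hq0.le)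
      _ = (x : ℝ) ^ (ε / 16 + (1 - ε / 2)) / q := by rw [mul_div_assoc', radd]
      _ ≤ _ := by
          apply div_le_div_of_nonneg_right _ hq0.le
          exact rle (by linarith)
  calc _ ≤ 4 * ((x : ℝ) ^ (1 - 3 * ε / 8) / q) + (x : ℝ) ^ (1 - 3 * ε / 8) / q := add_le_add k1 k2
    _ = 5 * ((x : ℝ) ^ (1 - 3 * ε / 8) / q) := by ring
    _ ≤ (x : ℝ) ^ (ε / 16) * ((x : ℝ) ^ (1 - 3 * ε / 8) / q) := by
        apply mul_le_mul_of_nonneg_right (by linarith) (div_nonneg (rpos _).le hq0.le)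
    _ = (x : ℝ) ^ (ε / 16 + (1 - 3 * ε / 8)) / q := by rw [mul_div_assoc', radd]
    _ ≤ _ := by
        apply div_le_div_of_nonneg_right _ hq0.le
        exact rle (by linarith)

end Pool.Agent.Helper91K1
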