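import Mathlib
import Pool.Agent.Helper91K1.Many

/-!
Few residue classes for each left modulus, all heights: the sum over the left moduli.
-/

set_option autoImplicit false

open Finset Filter

namespace Pool.Agent.Helper91K1

open Pool.Agent.R503.N
open Pool.Agent.Y826.Z Pool.Agent.Y826.Z.OB
open Pool.Agent.H300R2.WEH (err piR gp exists_grid gp_step gp_last err_nonneg)

/-- `li` at real arguments -/
noncomputable def liR (y : ℝ) : ℝ := ∫ t in (2 : ℝ)..y, 1 / Real.log t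

lemma err_eq (y : ℝ) (q : ℕ) (c : ℤ) (hq : 0 < q) (hc : IsCoprime c (q : ℤ)) :
    |pn ⌊y⌋₊ q c - liR y / (Nat.totient q : ℝ)| = err y q (rep q c) := by
  rw [pn_rep ⌊y⌋₊ q c hq hc]
  rfl

/-- the error for the modulus `q t` -/
lemma err_split (y : ℝ) (q t : ℕ) (c : ℤ) (hq : 0 < q) (hqt : q.Coprime t)
    (hc : IsCoprime c (q : ℤ)) :
    |pn ⌊y⌋₊ (q * t) c - liR y / (Nat.totient (q * t) : ℝ)| ≤
      |dd ⌊y⌋₊ q t c| + (1 / (Nat.totient t : ℝ)) * err y q (rep q c) := by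
  rw [← err_eq y q c hq hc]
  have e : pn ⌊y⌋₊ (q * t) c - liR y / (Nat.totient (q * t) : ℝ) = dd ⌊y⌋₊ q t c +
      (1 / (Nat.totient t : ℝ)) * (pn ⌊y⌋₊ q c - liR y / (Nat.totient q : ℝ)) := by
    unfold dd
    rw [Nat.totient_mul hqt]
    push_cast
    ring
  rw [e]
  refine (abs_add_le _ _).trans (add_le_add le_rfl ?_)
  rw [abs_mul, abs_of_nonneg (by positivity : (0 : ℝ) ≤ 1 / (Nat.totient t : ℝ))]

/-- the theorem of Bombieri and Vinogradov with different heights -/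
lemma bvh (κ : ℝ) (hκ : κ < 1 / 3) (U : ℕ) : ∃ C : ℝ, 0 ≤ C ∧ ∀ᶠ x : ℕ in atTop, ∀ (y : ℕ → ℝ) (l : ℕ → ℕ),
    (∀ d, 2 ≤ y d ∧ y d ≤ x) → (∀ d, 1 ≤ d → (l d).Coprime d) →
    ∑ d ∈ Icc 1 ⌊(x : ℝ) ^ κ⌋₊, err (y d) d (l d) ≤ C * (x / Real.log x ^ U) := by
  obtain ⟨C, hC, x0, h⟩ := Pool.Agent.H441R3.BV.main_nat U
  refine ⟨2 * C, by positivity, ?_⟩
  have hL : ∀ᶠ x : ℕ in atTop, 1 * Real.log x ^ (U + 2) ≤ (x : ℝ) ^ (1 / 6 : ℝ) :=
    tendsto_natCast_atTop_atTop.eventually (Pool.Agent.Y61.Z.ev_log_rpow 1 (U + 2) (by norm_num))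
  filter_upwards [hL, eventually_ge_atTop 3, eventually_ge_atTop x0] with x hxL hx3 hxx0 y l hy hl
  have hx1 : (1 : ℝ) ≤ x := by exact_mod_cast (by omega : 1 ≤ x)
  have hx0 : (0 : ℝ) < x := by linarith
  have hlg := log_ge1 hx3
  have hlg0 : 0 < Real.log x := by linarith
  have hfl : (⌊(x : ℝ) ^ κ⌋₊ : ℝ) ≤ (x : ℝ) ^ (1 / 3 : ℝ) :=
    (Nat.floor_le (by positivity)).trans (Real.rpow_le_rpow_of_exponent_le hx1 hκ.le)
  have h1 := h x hxx0 ⌊(x : ℝ) ^ κ⌋₊ (by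
    have h2 : ((⌊(x : ℝ) ^ κ⌋₊ : ℝ)) ^ 2 ≤ x := by
      calc ((⌊(x : ℝ) ^ κ⌋₊ : ℝ)) ^ 2 ≤ ((x : ℝ) ^ (1 / 3 : ℝ)) ^ 2 := by gcongr
        _ = (x : ℝ) ^ (2 / 3 : ℝ) := by
            rw [← Real.rpow_natCast, ← Real.rpow_mul hx0.le]
            norm_num
        _ ≤ (x : ℝ) ^ (1 : ℝ) := Real.rpow_le_rpow_of_exponent_le hx1 (by norm_num)
        _ = x := Real.rpow_one _
    exact_mod_cast h2) y (fun d => ⟨(hy d).1, by
      have := Nat.floor_le_floor (hy d).2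
      rwa [Nat.floor_natCast] at this⟩) l (fun d hd => hl d (mem_Icc.1 hd).1)
  refine h1.trans ?_
  have h3 : Real.log (Real.log x) ^ 2 ≤ Real.log x ^ 2 := by
    have := Real.log_le_sub_one_of_pos hlg0
    have h0 : 0 ≤ Real.log (Real.log x) := Real.log_nonneg hlg
    exact pow_le_pow_left₀ h0 (by linarith) 2
  have h2 : (⌊(x : ℝ) ^ κ⌋₊ : ℝ) * Real.sqrt x * Real.log (Real.log x) ^ 2 ≤ x / Real.log x ^ U := by
    rw [le_div_iff₀ (by positivity)]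
    calc (⌊(x : ℝ) ^ κ⌋₊ : ℝ) * Real.sqrt x * Real.log (Real.log x) ^ 2 * Real.log x ^ U
        ≤ (x : ℝ) ^ (1 / 3 : ℝ) * (x : ℝ) ^ (1 / 2 : ℝ) * Real.log x ^ 2 * Real.log x ^ U := by
          rw [Real.sqrt_eq_rpow]
          gcongr
      _ = ((x : ℝ) ^ (1 / 3 : ℝ) * (x : ℝ) ^ (1 / 2 : ℝ)) * (1 * Real.log x ^ (U + 2)) := by ring
      _ ≤ ((x : ℝ) ^ (1 / 3 : ℝ) * (x : ℝ) ^ (1 / 2 : ℝ)) * (x : ℝ) ^ (1 / 6 : ℝ) :=
          mul_le_mul_of_nonneg_left hxL (by positivity)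
      _ = x := by
          rw [← Real.rpow_add hx0, ← Real.rpow_add hx0]
          norm_num
  calc C * (x / Real.log x ^ U + (⌊(x : ℝ) ^ κ⌋₊ : ℝ) * Real.sqrt x * Real.log (Real.log x) ^ 2)
      ≤ C * (x / Real.log x ^ U + x / Real.log x ^ U) := by gcongr
    _ = _ := by ring

/-- large `x` -/
lemma many_large (x : ℕ) (hx : 3 ≤ x) (U : ℕ) (κ C1 B : ℝ) (S : Finset ℕ) (T : ℕ → Finset ℕ)
    (a : ℕ → ℕ → ℤ) (y : ℕ → ℕ → ℝ)
    (hS : ∀ q ∈ S, 0 < q ∧ q ≤ x ∧ (q : ℝ) ≤ (x : ℝ) ^ κ)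
    (hT : ∀ q ∈ S, T q ⊆ Icc 1 x) (hco : ∀ q ∈ S, ∀ t ∈ T q, q.Coprime t)
    (hac : ∀ q ∈ S, ∀ t ∈ T q, IsCoprime (a q t) (q : ℤ))
    (hy : ∀ q ∈ S, ∀ t ∈ T q, 2 ≤ y q t ∧ y q t ≤ x)
    (hmain : ∀ q ∈ S, ∑ t ∈ T q, |dd ⌊y q t⌋₊ q t (a q t)| ≤ B / q) (hB0 : 0 ≤ B)
    (hB : B * (1 + Real.log x) ≤ x / Real.log x ^ U)
    (hbv : ∀ (y : ℕ → ℝ) (l : ℕ → ℕ), (∀ d, 2 ≤ y d ∧ y d ≤ x) → (∀ d, 1 ≤ d → (l d).Coprime d) →
      ∑ d ∈ Icc 1 ⌊(x : ℝ) ^ κ⌋₊, err (y d) d (l d) ≤ C1 * (x / Real.log x ^ (U + 2))) :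
    ∑ q ∈ S, ∑ t ∈ T q, |pn ⌊y q t⌋₊ (q * t) (a q t) - liR (y q t) / (Nat.totient (q * t) : ℝ)| ≤
      (1 + 4 * C1) * (x / Real.log x ^ U) := by
  classical
  have hl := log_ge1 hx
  have hl0 : 0 < Real.log x := by linarith
  have hxr : (0 : ℝ) < x := by exact_mod_cast (by omega : 0 < x)
  have h2x : (2 : ℝ) ≤ x := by exact_mod_cast (by omega : 2 ≤ x)
  -- the worst `t`
  have hex : ∀ q : ℕ, ∃ t0 : ℕ, q ∈ S → (T q).Nonempty → t0 ∈ T q ∧
      ∀ t ∈ T q, err (y q t) q (rep q (a q t)) ≤ err (y q t0) q (rep q (a q t0)) := by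
    intro q
    by_cases h : q ∈ S ∧ (T q).Nonempty
    · obtain ⟨t0, h1, h2⟩ := exists_max_image (T q) (fun t => err (y q t) q (rep q (a q t))) h.2
      exact ⟨t0, fun _ _ => ⟨h1, h2⟩⟩
    · exact ⟨0, fun h1 h2 => absurd ⟨h1, h2⟩ h⟩
  choose m hm using hex
  set S' := S.filter (fun q => (T q).Nonempty) with hS'
  set yy : ℕ → ℝ := fun q => if q ∈ S' then y q (m q) else 2 with hyy
  set ll : ℕ → ℕ := fun q => rep q (a q (m q)) with hll
  have hyy2 : ∀ d, 2 ≤ yy d ∧ yy d ≤ x := by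
    intro d
    simp only [hyy]
    split_ifs with h
    · rw [hS', mem_filter] at h
      exact hy d h.1 _ (hm d h.1 h.2).1
    · exact ⟨le_rfl, h2x⟩
  have hll2 : ∀ d, 1 ≤ d → (ll d).Coprime d := fun d hd => rep_coprime d _ hd
  have hbv' := hbv yy ll hyy2 hll2
  have h1 : ∀ q ∈ S, ∑ t ∈ T q, |pn ⌊y q t⌋₊ (q * t) (a q t) - liR (y q t) / (Nat.totient (q * t) : ℝ)| ≤
      B / q + 4 * Real.log x ^ 2 * (if q ∈ S' then err (yy q) q (ll q) else 0) := by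
    intro q hq
    refine (sum_le_sum fun t ht => err_split (y q t) q t (a q t) (hS q hq).1 (hco q hq t ht) (hac q hq t ht)).trans ?_
    rw [sum_add_distrib]
    apply add_le_add (hmain q hq)
    by_cases hq' : q ∈ S'
    · rw [if_pos hq']
      have hne : (T q).Nonempty := (mem_filter.1 hq').2
      have hmq := (hm q hq hne).2
      have hyq : yy q = y q (m q) := by simp only [hyy]; rw [if_pos hq']
      rw [hyq]
      calc ∑ t ∈ T q, (1 / (Nat.totient t : ℝ)) * err (y q t) q (rep q (a q t))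
          ≤ ∑ t ∈ T q, (1 / (Nat.totient t : ℝ)) * err (y q (m q)) q (ll q) :=
            sum_le_sum fun t ht => mul_le_mul_of_nonneg_left (hmq t ht) (by positivity)
        _ = (∑ t ∈ T q, (1 / (Nat.totient t : ℝ))) * err (y q (m q)) q (ll q) := by rw [sum_mul]
        _ ≤ _ := mul_le_mul_of_nonneg_right (sum_inv_phi x hx (T q) (hT q hq)) (err_nonneg _ _ _)
    · rw [if_neg hq', mul_zero]
      have hne : T q = ∅ := by
        by_contra hcon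
        exact hq' (mem_filter.2 ⟨hq, nonempty_iff_ne_empty.2 hcon⟩)
      rw [hne, sum_empty]
  refine (sum_le_sum h1).trans ?_
  rw [sum_add_distrib, ← mul_sum]
  have g1 : ∑ q ∈ S, B / (q : ℝ) ≤ x / Real.log x ^ U := by
    have e : ∑ q ∈ S, B / (q : ℝ) = B * ∑ q ∈ S, (1 / (q : ℝ)) := by
      rw [mul_sum]
      exact sum_congr rfl fun q _ => by ring
    rw [e]
    have h2 := sum_mult 1 x one_pos S (fun q hq => ⟨(hS q hq).1, (hS q hq).2.1, one_dvd _⟩)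
    rw [Nat.cast_one, div_one] at h2
    exact (mul_le_mul_of_nonneg_left h2 hB0).trans hB
  have g2 : ∑ q ∈ S, (if q ∈ S' then err (yy q) q (ll q) else 0) ≤ C1 * (x / Real.log x ^ (U + 2)) := by
    rw [← sum_filter]
    refine le_trans ?_ hbv'
    apply sum_le_sum_of_subset_of_nonneg
    · intro q hq
      rw [mem_filter] at hq
      rw [mem_Icc]
      exact ⟨(hS q hq.1).1, Nat.le_floor (hS q hq.1).2.2⟩
    · intro i _ _
      exact err_nonneg _ _ _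
  have g3 : 4 * Real.log x ^ 2 * ∑ q ∈ S, (if q ∈ S' then err (yy q) q (ll q) else 0) ≤
      4 * Real.log x ^ 2 * (C1 * (x / Real.log x ^ (U + 2))) :=
    mul_le_mul_of_nonneg_left g2 (by positivity)
  refine (add_le_add g1 g3).trans (le_of_eq ?_)
  rw [pow_add]
  field_simp

theorem many (θ κ : ℝ) (hθ1 : 1 / 2 ≤ θ) (hθ : θ < 43 / 84) (hκ0 : 0 ≤ κ) (hκ : κ < 1 / 3) :
    ∃ η : ℝ, 0 < η ∧ ∀ ε1 : ℝ, 0 < ε1 → ∃ ν : ℝ, 0 < ν ∧ ∀ U : ℕ, ∃ C : ℝ, 0 < C ∧ ∀ x : ℕ, 3 ≤ x →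
      ∀ (A : ℕ → Finset ℤ) (S : Finset ℕ) (T : ℕ → Finset ℕ) (a : ℕ → ℕ → ℤ) (y : ℕ → ℕ → ℝ),
      (∀ q ∈ S, 0 < q ∧ (q : ℝ) ≤ (x : ℝ) ^ κ ∧ ((A q).card : ℝ) ≤ (x : ℝ) ^ ν) →
      (∀ q ∈ S, ∀ t ∈ T q, a q t ∈ A q ∧ IsCoprime (a q t) (q : ℤ) ∧ Mo x q (a q t) θ ε1 η t ∧
        2 ≤ y q t ∧ y q t ≤ x) →
      ∑ q ∈ S, ∑ t ∈ T q, |pn ⌊y q t⌋₊ (q * t) (a q t) - liR (y q t) / (Nat.totient (q * t) : ℝ)| ≤
        C * (x / Real.log x ^ U) := by
  obtain ⟨η, hη, hmain⟩ := one_left θ κ hθ1 hθ hκ0 hκ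
  refine ⟨η, hη, fun ε1 hε1 => ?_⟩
  obtain ⟨ν, hν, hev⟩ := hmain ε1 hε1
  refine ⟨ν, hν, fun U => ?_⟩
  obtain ⟨C1, hC1, hbv⟩ := bvh κ hκ (U + 2)
  have hlog : ∀ᶠ x : ℕ in atTop, 2 * Real.log x ^ (U + 1) ≤ (x : ℝ) ^ ν :=
    tendsto_natCast_atTop_atTop.eventually (Pool.Agent.Y61.Z.ev_log_rpow 2 (U + 1) hν)
  obtain ⟨x0, hx0⟩ := eventually_atTop.1 (hev.and (hlog.and hbv))
  set Bd : ℕ → ℝ := fun x => (x : ℝ) * ((x : ℝ) * (3 * (x : ℝ))) * Real.log x ^ U / x with hBd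
  have hBd0 : ∀ x, 0 ≤ Bd x := by
    intro x
    have := Real.log_natCast_nonneg x
    rw [hBd]
    positivity
  refine ⟨(1 + 4 * C1) + ∑ x ∈ range x0, Bd x, ?_, ?_⟩
  · have : 0 ≤ ∑ x ∈ range x0, Bd x := sum_nonneg fun x _ => hBd0 x
    linarith
  intro x hx A S T a y hS hT
  have hl := log_ge1 hx
  have hl0 : 0 < Real.log x := by linarith
  have hx1 : (1 : ℝ) ≤ x := by exact_mod_cast (by omega : 1 ≤ x)
  have hxr : (0 : ℝ) < x := by linarith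
  have hsum0 : 0 ≤ ∑ x ∈ range x0, Bd x := sum_nonneg fun x _ => hBd0 x
  have hmain0 : 0 ≤ (x : ℝ) / Real.log x ^ U := by positivity
  have hSx : ∀ q ∈ S, q ≤ x := by
    intro q hq
    have h1 : (q : ℝ) ≤ x := by
      refine (hS q hq).2.1.trans ?_
      calc (x : ℝ) ^ κ ≤ (x : ℝ) ^ (1 : ℝ) := Real.rpow_le_rpow_of_exponent_le hx1 (by linarith)
        _ = x := Real.rpow_one _
    exact_mod_cast h1
  have hTx : ∀ q ∈ S, T q ⊆ Icc 1 x := by
    intro q hq t ht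
    obtain ⟨-, -, h3, -, -⟩ := hT q hq t ht
    rw [mem_Icc]
    refine ⟨h3.pos, ?_⟩
    have h1 : (t : ℝ) ≤ x := by
      have h2 : (t : ℝ) ≤ q * t := le_mul_of_one_le_left (Nat.cast_nonneg t) (by exact_mod_cast (hS q hq).1)
      refine h2.trans (h3.2.2.2.trans ?_)
      calc (x : ℝ) ^ θ ≤ (x : ℝ) ^ (1 : ℝ) := Real.rpow_le_rpow_of_exponent_le hx1 (by linarith)
        _ = x := Real.rpow_one _
    exact_mod_cast h1
  rcases Nat.lt_or_ge x x0 with h | h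
  · -- small `x`
    have h1 : ∑ q ∈ S, ∑ t ∈ T q, |pn ⌊y q t⌋₊ (q * t) (a q t) - liR (y q t) / (Nat.totient (q * t) : ℝ)| ≤
        (x : ℝ) * ((x : ℝ) * (3 * (x : ℝ))) := by
      have h2 : ∀ q ∈ S, ∀ t ∈ T q,
          |pn ⌊y q t⌋₊ (q * t) (a q t) - liR (y q t) / (Nat.totient (q * t) : ℝ)| ≤ 3 * (x : ℝ) := by
        intro q hq t ht
        obtain ⟨-, -, h3, h4, h5⟩ := hT q hq t ht
        obtain ⟨g1, g2⟩ := Pool.Agent.H441R3.BV.li_bound (y q t) h4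
        have g3 : pn ⌊y q t⌋₊ (q * t) (a q t) ≤ x := by
          have g4 : ⌊y q t⌋₊ ≤ x := by
            have := Nat.floor_le_floor h5
            rwa [Nat.floor_natCast] at this
          have g5 : pn ⌊y q t⌋₊ (q * t) (a q t) ≤ (⌊y q t⌋₊ : ℝ) := by
            unfold pn
            exact_mod_cast (card_filter_le _ _).trans (by simp)
          exact g5.trans (by exact_mod_cast g4)
        have g6 : (0 : ℝ) ≤ pn ⌊y q t⌋₊ (q * t) (a q t) := by unfold pn; positivity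
        have g7 : (1 : ℝ) ≤ (Nat.totient (q * t) : ℝ) := by
          exact_mod_cast Nat.totient_pos.2 (Nat.mul_pos (hS q hq).1 h3.pos)
        have g8 : liR (y q t) / (Nat.totient (q * t) : ℝ) ≤ 2 * x := by
          refine (div_le_self g1 g7).trans (g2.trans ?_)
          linarith
        have g9 : 0 ≤ liR (y q t) / (Nat.totient (q * t) : ℝ) := div_nonneg g1 (by linarith)
        rw [abs_le]
        constructor <;> linarith
      have h3 : ∀ q ∈ S, ∑ t ∈ T q, |pn ⌊y q t⌋₊ (q * t) (a q t) - liR (y q t) / (Nat.totient (q * t) : ℝ)| ≤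
          (x : ℝ) * (3 * (x : ℝ)) := by
        intro q hq
        refine (sum_le_sum (h2 q hq)).trans ?_
        rw [sum_const, nsmul_eq_mul]
        apply mul_le_mul_of_nonneg_right _ (by positivity)
        have := card_le_card (hTx q hq)
        rw [Nat.card_Icc, Nat.add_sub_cancel] at this
        exact_mod_cast this
      refine (sum_le_sum h3).trans ?_
      rw [sum_const, nsmul_eq_mul]
      apply mul_le_mul_of_nonneg_right _ (by positivity)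
      have h5 : S ⊆ Icc 1 x := fun q hq => mem_Icc.2 ⟨(hS q hq).1, hSx q hq⟩
      have := card_le_card h5
      rw [Nat.card_Icc, Nat.add_sub_cancel] at this
      exact_mod_cast this
    refine h1.trans ?_
    have h2 : (x : ℝ) * ((x : ℝ) * (3 * (x : ℝ))) = Bd x * (x / Real.log x ^ U) := by
      rw [hBd]
      field_simp
    rw [h2]
    have h3 : Bd x ≤ ∑ x ∈ range x0, Bd x := single_le_sum (fun i _ => hBd0 i) (mem_range.2 h)
    apply mul_le_mul_of_nonneg_right _ hmain0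
    linarith
  · -- large `x`
    obtain ⟨h1, h2, hbvx⟩ := hx0 x h
    have h3 := many_large x hx U κ C1 ((x : ℝ) ^ (1 - ν)) S T a y
      (fun q hq => ⟨(hS q hq).1, hSx q hq, (hS q hq).2.1⟩) hTx
      (fun q hq t ht => (Nat.squarefree_mul_iff.1 (hT q hq t ht).2.2.1.1).1)
      (fun q hq t ht => (hT q hq t ht).2.1)
      (fun q hq t ht => (hT q hq t ht).2.2.2)
      (fun q hq => h1 q (hS q hq).1 (hS q hq).2.1 (A q) (hS q hq).2.2 (T q) (a q) (fun t => ⌊y q t⌋₊)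
        (fun t ht => (hT q hq t ht).1) (fun t ht => (hT q hq t ht).2.1)
        (fun t ht => (hT q hq t ht).2.2.1) (fun t ht => by
          have := Nat.floor_le_floor (hT q hq t ht).2.2.2.2
          rwa [Nat.floor_natCast] at this))
      (by positivity) (by
        rw [le_div_iff₀ (by positivity)]
        have e : (x : ℝ) = (x : ℝ) ^ (1 - ν) * (x : ℝ) ^ ν := by
          rw [← Real.rpow_add hxr]
          have : 1 - ν + ν = 1 := by ring
          rw [this, Real.rpow_one]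
        have h4 : (1 + Real.log x) * Real.log x ^ U ≤ (x : ℝ) ^ ν := by
          calc (1 + Real.log x) * Real.log x ^ U ≤ (2 * Real.log x) * Real.log x ^ U := by
                apply mul_le_mul_of_nonneg_right _ (by positivity)
                linarith
            _ = 2 * Real.log x ^ (U + 1) := by ring
            _ ≤ _ := h2
        calc (x : ℝ) ^ (1 - ν) * (1 + Real.log x) * Real.log x ^ U
            = (x : ℝ) ^ (1 - ν) * ((1 + Real.log x) * Real.log x ^ U) := by ring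
          _ ≤ (x : ℝ) ^ (1 - ν) * (x : ℝ) ^ ν := mul_le_mul_of_nonneg_left h4 (by positivity)
          _ = x := e.symm)
      hbvx
    refine h3.trans ?_
    apply mul_le_mul_of_nonneg_right _ hmain0
    linarith

end Pool.Agent.Helper91K1
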